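import Pool.Agent.Q46.FM.Fin

/-!
# MP_4a0cc8_nt: for every C, all but finitely many of the curves congruent to a given curve modulo some
# n have an invariant of height larger than C n

Let `K` be a number field, `c`, `b` positive integers and `C` a real number. There is a FINITE set `R` of
elliptic curves over `K` with the following property. Let `E₀ : y² = x³ + A₀x + B₀` be any elliptic curve
over `K` with good reduction outside `c` (coefficients integral and discriminant a unit outside `c`),
let `n ≥ 3` be any integer without a square factor `p²`, `p > b` prime, and `E` any elliptic curve over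
`K` with `E[n] ≅ E₀[n]`. Then `E` is isomorphic over `K` to a curve of `R`, or `j(E)` has a pole, at a
place `v` with `log N(v) > C`, of an order `m` with `n ∣ 60 m`, and the height of `j(E)` is larger than
`C n`. So the heights of the invariants of the partners of a fixed curve grow faster than any multiple of
the level. By Faltings' theorem on single pairs (see the problem file) only finitely many `n` occur for
the curves of `R` which are not isogenous to `E₀`; so Q1 holds for all `E` with `h(j(E)) ≤ C n`.

Proof. (1) Let `v` be a place not above `6`, the discriminant of `K`, the primes `≤ max (b, 17)`, `c` and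
of norm larger than `exp (60 C)`. If `v(j(E)) < 0`, then `n ∣ 60 v(j(E))`, also for `v ∣ n` (theorems
`FM.loc` and `FM.tameM` of helper673, one prime power of `n` at a time); since the pole is at a large
place the height is larger than `C n`. (2) Otherwise `v(j(E)) ≥ 0` for all these `v`, and then `12`
divides `v(4A³ + 27B²)`, also for `v ∣ n` (`FM.locG`, `FM.tameG`): `E` has good reduction at `v`.
(3) There are only finitely many curves with good reduction outside a finite set of places
(Shafarevich's theorem, proved here, `Q46/FM/Shaf`): the fields of the points of order two are finite in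
number (bounds for discriminants of helper673 and Hermite's theorem), the discriminants are finite in
number modulo twelfth powers, so `λ` lies in a fixed number field, and `λ`, `1 - λ` are units outside
a fixed finite set of places (unit equation, library `Y741`).
-/

set_option autoImplicit false

open WeierstrassCurve NumberField IsDedekindDomain
open scoped Classical

namespace Pool.Agent.Results.MP_4a0cc8_nt.HeightsAboveLevel

section
variable {K : Type} [Field K]

/-- The curve `y² = x³ + Ax + B` over `K`. -/
def curve (A B : K) : WeierstrassCurve K := ⟨0, 0, 0, A, B⟩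

/-- The group of its points over the algebraic closure of `K`. -/
abbrev Points (A B : K) : Type := ((curve A B).baseChange (AlgebraicClosure K)).toAffine.Point

/-- The action of a `K`-automorphism `σ` of the algebraic closure on the points. -/
noncomputable def galois (A B : K) (σ : AlgebraicClosure K ≃ₐ[K] AlgebraicClosure K) :
    Points A B →+ Points A B :=
  WeierstrassCurve.Affine.Point.map (σ : AlgebraicClosure K →ₐ[K] AlgebraicClosure K)

/-- The `n`-torsion of `y² = x³ + Ax + B` and that of `y² = x³ + A'x + B'` are isomorphic as Galois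
modules: some map between the groups of points restricts to a bijective additive map of the
`n`-torsion which commutes with the Galois group. -/
def Congruent (n : ℕ) (A B A' B' : K) : Prop :=
  ∃ f : Points A B → Points A' B', (∀ P Q, n • P = 0 → n • Q = 0 → f (P + Q) = f P + f Q) ∧
    Set.BijOn f {P | n • P = 0} {Q | n • Q = 0} ∧
    ∀ (σ : AlgebraicClosure K ≃ₐ[K] AlgebraicClosure K) (P : Points A B), n • P = 0 →
      f (galois A B σ P) = galois A' B' σ (f P)

/-- The invariant of `y² = x³ + Ax + B`. -/
noncomputable def jInvariant (A B : K) : K := 6912 * A ^ 3 / (4 * A ^ 3 + 27 * B ^ 2)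

/-- The curves `y² = x³ + Ax + B` and `y² = x³ + A'x + B'` are isomorphic over `K`. -/
def Isomorphic (A B A' B' : K) : Prop := ∃ t : K, t ≠ 0 ∧ A' = t ^ 4 * A ∧ B' = t ^ 6 * B

end

section
variable {K : Type} [Field K] [NumberField K]

/-- Outside the primes dividing `c` the coefficients are integral and `4A³ + 27B²` is a unit. -/
def GoodOutside (c : ℕ) (A B : K) : Prop :=
  ∀ v : HeightOneSpectrum (𝓞 K), v.valuation K (c : K) = 1 →
    v.valuation K A ≤ 1 ∧ v.valuation K B ≤ 1 ∧ v.valuation K (4 * A ^ 3 + 27 * B ^ 2) = 1

/-- `j` has a pole of some order `m` with `n ∣ 60 m` at some prime `v` with `log N(v) > C`. -/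
def LargePole (n : ℕ) (C : ℝ) (j : K) : Prop :=
  ∃ (v : HeightOneSpectrum (𝓞 K)) (m : ℕ), C < Real.log (Ideal.absNorm v.asIdeal) ∧ 0 < m ∧
    n ∣ 60 * m ∧ v.valuation K j = WithZero.exp (m : ℤ)

end

/-- **Partners have heights above any multiple of the level, with finitely many exceptions.** (1) For all
`c`, `b`, `C` there is a finite set `R` of curves such that every curve `E` congruent modulo some `n ≥ 3`
(not divisible by `p²` for primes `p > b`) to some `E₀` with good reduction outside `c` is isomorphic to a
curve of `R`, or `h(j(E)) > C n` and `j(E)` has a large pole. (2) Every `E₀` has good reduction outside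
some `c`. -/
theorem result (K : Type) [Field K] [NumberField K] :
    (∀ c b : ℕ, 0 < c → ∀ C : ℝ, ∃ R : Finset (K × K),
      ∀ A₀ B₀ : K, 4 * A₀ ^ 3 + 27 * B₀ ^ 2 ≠ 0 → GoodOutside c A₀ B₀ →
      ∀ A B : K, 4 * A ^ 3 + 27 * B ^ 2 ≠ 0 → ∀ n : ℕ, 3 ≤ n →
        (∀ p : ℕ, p.Prime → b < p → ¬ p ^ 2 ∣ n) → Congruent n A B A₀ B₀ →
          (∃ e ∈ R, Isomorphic e.1 e.2 A B) ∨
            (C * n < Height.logHeight₁ (jInvariant A B) ∧ LargePole n C (jInvariant A B))) ∧
    (∀ A₀ B₀ : K, 4 * A₀ ^ 3 + 27 * B₀ ^ 2 ≠ 0 → ∃ c : ℕ, 0 < c ∧ GoodOutside c A₀ B₀) := by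
  refine ⟨fun c b hc C => ?_, fun A₀ B₀ h => Pool.Agent.Q46.FM.exists_good A₀ B₀ h⟩
  obtain ⟨R, hR⟩ := Pool.Agent.Q46.FM.main' K c b hc C
  refine ⟨R, fun A₀ B₀ hD₀ hg A B hD n hn hsq hf => ?_⟩
  obtain ⟨f, h1, h2, h3⟩ := hf
  exact hR A₀ B₀ hD₀ hg A B hD n hn hsq f ⟨h1, h2, h3⟩

end Pool.Agent.Results.MP_4a0cc8_nt.HeightsAboveLevel
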